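import Pool.Agent.N436.DF.Stm3

/-!
# DH/11: `S3_rb8`, `S3_m0`, `S3_rb10` (helper123)
-/

set_option autoImplicit false
set_option linter.all false

namespace Pool.Agent.N123.DF

open Finset Pool.Agent.N436.DF

variable {V : Type} [DecidableEq V]

theorem sv_nn {H : Hub V} (hok : Ok P13 H) (f : V → Bool) (s : V → V → ℤ)
    (hs : ∀ x z, 0 ≤ s x z) (x z : V) : 0 ≤ sv H f s x z := by
  unfold sv
  have h1 := hok.m_nn x z
  have h2 := hs x z
  have h3 : 0 ≤ min (H.m x z) (s x z) := le_min h1 h2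
  rcases hok.r01 x z with h | h <;> rw [h] <;> split_ifs <;> omega

theorem sv_7 {H : Hub V} (hok : Ok P13 H) (f : V → Bool) (s : V → V → ℤ)
    {x z : V} (hr : H.r x z = 1) (h2 : 1 ≤ s x z) : 7 ≤ sv H f s x z := by
  unfold sv
  have h1 := hok.m_nn x z
  have h3 : 0 ≤ min (H.m x z) (s x z) := le_min h1 (by omega)
  rw [hr]
  split_ifs <;> omega

theorem sv_9 {H : Hub V} (hok : Ok P13 H) (f : V → Bool) (s : V → V → ℤ)
    {x z : V} (hr : H.r x z = 1) (h2 : 1 ≤ s x z) (hf : f x = false) : 9 ≤ sv H f s x z := by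
  unfold sv
  have h1 := hok.m_nn x z
  have h3 : 0 ≤ min (H.m x z) (s x z) := le_min h1 (by omega)
  rw [hr, hf]
  split_ifs <;> simp_all <;> omega

theorem sv_9m {H : Hub V} (f : V → Bool) (s : V → V → ℤ)
    {x z : V} (hr : H.r x z = 1) (h2 : 1 ≤ s x z) (hm : 1 ≤ H.m x z) : 9 ≤ sv H f s x z := by
  unfold sv
  have h3 : 1 ≤ min (H.m x z) (s x z) := le_min hm (by omega)
  rw [hr]
  split_ifs <;> omega

theorem sv_2 {H : Hub V} (hok : Ok P13 H) (f : V → Bool) (s : V → V → ℤ)
    (hs : ∀ x z, 0 ≤ s x z) {x z : V} (hf : f x = true ∨ 1 ≤ s x z)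
    (h : H.r x z = 1 ∨ 1 ≤ H.m x z) : 2 ≤ sv H f s x z := by
  unfold sv
  have h1 := hok.m_nn x z
  have h2 := hs x z
  have h3 : 0 ≤ min (H.m x z) (s x z) := le_min h1 h2
  rcases h with h | h
  · rw [h]
    rcases hf with hf | hf
    · rw [if_pos hf, if_pos hf, if_pos hf]
      split_ifs <;> omega
    · split_ifs <;> omega
  · have h4 := hok.r01 x z
    rcases hf with hf | hf
    · rw [if_pos hf, if_pos hf, if_pos hf]
      split_ifs <;> omega
    · have h5 : 1 ≤ min (H.m x z) (s x z) := le_min h hf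
      split_ifs <;> omega

theorem two_le {X B : Finset V} {g : V → V → ℤ} (hg : ∀ x z, 0 ≤ g x z) {v w x z : V}
    (hv : v ∈ X) (hw : w ∈ B) (hx : x ∈ X) (hz : z ∈ B) (hne : x ≠ v ∨ z ≠ w) :
    g v w + g x z ≤ ∑ x ∈ X, ∑ z ∈ B, g x z := by
  rw [← sum_product']
  have h1 : ((v, w) : V × V) ≠ (x, z) := by
    intro h
    rw [Prod.mk.injEq] at h
    rcases hne with h2 | h2
    · exact h2 h.1.symm
    · exact h2 h.2.symm
  exact add_le_sum (f := fun q : V × V => g q.1 q.2) (s := X ×ˢ B) (fun q _ => hg q.1 q.2)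
    (mem_product.2 ⟨hv, hw⟩) (mem_product.2 ⟨hx, hz⟩) h1

theorem one_le {X B : Finset V} {g : V → V → ℤ} (hg : ∀ x z, 0 ≤ g x z) {v w : V}
    (hv : v ∈ X) (hw : w ∈ B) : g v w ≤ ∑ x ∈ X, ∑ z ∈ B, g x z :=
  (single_le_sum (f := fun z => g v z) (fun z _ => hg v z) hw).trans
    (single_le_sum (f := fun x => ∑ z ∈ B, g x z)
      (fun x _ => sum_nonneg fun z _ => hg x z) hv)

/-- the kill argument -/
theorem kk (hb : S3_base) (hk : S3_kill) {H : Hub V} {S X : Finset V} {v w : V} {f : V → Bool}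
    {p s : V → V → ℤ} (mc : MinCex P13 H S) (hX : X ⊆ S) (hv : v ∈ X) (hw : w ∈ S \ X)
    (hr : H.r v w = 1) (hcol : ColBy H X f p) (hs : ∀ x z, 0 ≤ s x z)
    (hcap : ∀ x ∈ X, load H X f p x + ∑ z ∈ S \ X, s x z ≤ H.c (f x) x) (hvw : 1 ≤ s v w)
    (hRB : ∀ Y, Y ⊆ S → RB H S Y → hp H X - 2 ≤ hp H Y) (hle : hp H X ≤ 12)
    (htot : hp H X ≤ ∑ x ∈ X, ∑ z ∈ S \ X, sv H f s x z) : False := by
  obtain ⟨-, -, -, -, hmc⟩ := hb V H mc.ok
  obtain ⟨hm1, hm2⟩ := hmc S mc
  obtain ⟨C, hC, hCn, hle2⟩ := hk V H S X f p s mc hX ⟨v, hv⟩ hcol hs hcap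
  have hnn : ∀ x z, 0 ≤ sv H f s x z := sv_nn mc.ok f s hs
  have hXC : X ∪ C ⊆ S := union_subset hX (hC.trans sdiff_subset)
  by_cases hCB : C = S \ X
  · rw [hCB, union_sdiff_of_subset hX] at hle2
    have := hm1 S subset_rfl ⟨v, hX hv⟩
    omega
  · have hne : X ∪ C ≠ S := by
      intro h
      apply hCB
      apply Subset.antisymm hC
      intro z hz
      have : z ∈ X ∪ C := by rw [h]; exact (mem_sdiff.1 hz).1
      exact (mem_union.1 this).resolve_left (mem_sdiff.1 hz).2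
    have h3 := (hm2 (X ∪ C) hXC ⟨v, mem_union_left _ hv⟩ hne).2
    by_cases hRBC : RB H S (X ∪ C)
    · have h4 := hRB _ hXC hRBC
      have h5 : 0 ≤ ∑ x ∈ X, ∑ z ∈ C, sv H f s x z :=
        sum_nonneg fun x _ => sum_nonneg fun z _ => hnn x z
      omega
    · have hwC : w ∈ C := by
        by_contra hcon
        apply hRBC
        refine ⟨v, mem_union_left _ hv, w, ?_, hr⟩
        rw [mem_sdiff, mem_union]
        refine ⟨(mem_sdiff.1 hw).1, ?_⟩
        rintro (h | h)
        · exact (mem_sdiff.1 hw).2 h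
        · exact hcon h
      have h5 : sv H f s v w ≤ ∑ x ∈ X, ∑ z ∈ C, sv H f s x z := one_le hnn hv hwC
      have h6 : 7 ≤ sv H f s v w := sv_7 mc.ok f s hr hvw
      omega

/-- units of both colours reserved at `v`, and a unit of colour 2 at `x` -/
theorem st (hb : S3_base) (hs : S3_state) {H : Hub V} {S X : Finset V} {v w x : V} {n : ℤ}
    (mc : MinCex P13 H S) (hX : X ⊆ S) (hv : v ∈ X) (hw : w ∈ S \ X)
    (hr : H.r v w = 1) (hn : RBge H S n) (h6 : 6 ≤ n) (h9 : x ≠ v → 9 ≤ n) :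
    ∃ f p, ColBy H X f p ∧ ∀ y ∈ X,
      load H X f p y + (if y = v then 1 else if y = x ∧ f y = false then 1 else 0) ≤
        H.c (f y) y := by
  obtain ⟨-, -, -, -, hmc⟩ := hb V H mc.ok
  obtain ⟨hm1, hm2⟩ := hmc S mc
  obtain ⟨hwS, hwX⟩ := mem_sdiff.1 hw
  obtain ⟨f, p, hcol, hfp⟩ := hs V H S X
    (fun i y => if y = v then 1 else if y = x ∧ i = false then 1 else 0) mc hX
    (fun h => hwX (h ▸ hwS)) (fun i y => by split_ifs <;> norm_num) (fun C hC hCn => by
      have hCS : C ≠ S := fun h => hwX (hC (h ▸ hwS))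
      have h3 := (hm2 C (hC.trans hX) hCn hCS).2
      have hcost : cost (fun i y => if y = v then (1 : ℤ) else
          if y = x ∧ i = false then 1 else 0) C ≤
          (if v ∈ C then 8 else 0) + (if x ≠ v then 3 else 0) := by
        unfold cost
        have e1 : ∀ z, (5 * (if z = v then (1 : ℤ) else if z = x ∧ true = false then 1 else 0) +
            3 * (if z = v then (1 : ℤ) else if z = x ∧ false = false then 1 else 0)) =
            (if z = v then 8 else 0) + (if z = x then (if x ≠ v then 3 else 0) else 0) := by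
          intro z
          by_cases h1 : z = v
          · subst h1
            by_cases h2 : z = x
            · subst h2
              simp
            · simp [h2]
          · by_cases h2 : z = x
            · subst h2
              simp [h1]
            · simp [h1, h2]
        rw [sum_congr rfl (fun z _ => e1 z), sum_add_distrib, sum_ite_eq', sum_ite_eq']
        split_ifs <;> norm_num
      refine hcost.trans ?_
      by_cases hvC : v ∈ C
      · have hRB : RB H S C := ⟨v, hvC, w, mem_sdiff.2 ⟨hwS, fun h => hwX (hC h)⟩, hr⟩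
        have h4 := hn C (hC.trans hX) hRB
        rw [if_pos hvC]
        by_cases hxv : x = v
        · rw [if_neg (not_not.2 hxv)]
          omega
        · rw [if_pos hxv]
          have := h9 hxv
          omega
      · rw [if_neg hvC]
        split_ifs <;> omega)
  refine ⟨f, p, hcol, fun y hy => ?_⟩
  exact (hfp y hy).1

/-- one vertex -/
theorem oneV (hb : S3_base) (hs : S3_state) (hk : S3_kill) {H : Hub V} {S X : Finset V}
    {v w : V} {n : ℤ} (mc : MinCex P13 H S) (hX : X ⊆ S) (hv : v ∈ X) (hw : w ∈ S \ X)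
    (hr : H.r v w = 1) (hn : RBge H S n) (h6 : 6 ≤ n) (hle : hp H X ≤ 9)
    (hn2 : hp H X - 2 ≤ n) (hcase : hp H X ≤ 7 ∨ 1 ≤ H.m v w ∨
      ∃ z ∈ S \ X, z ≠ w ∧ (H.r v z = 1 ∨ 1 ≤ H.m v z)) : False := by
  obtain ⟨f, p, hcol, hcap⟩ := st hb hs mc hX hv hw hr hn h6 (x := v) (fun h => absurd rfl h)
  obtain ⟨s, hsd⟩ : ∃ s : V → V → ℤ, ∀ y t, s y t = if y = v then (if t = w then 1 else 0) else 0 :=
    ⟨_, fun _ _ => rfl⟩
  have hs0 : ∀ y t, 0 ≤ s y t := fun y t => by rw [hsd]; split_ifs <;> norm_num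
  have hs1 : 1 ≤ s v w := by rw [hsd, if_pos rfl, if_pos rfl]
  have hnn : ∀ x z, 0 ≤ sv H f s x z := sv_nn mc.ok f s hs0
  refine kk hb hk mc hX hv hw hr hcol hs0 (fun y hy => ?_) hs1
    (fun Y hY hRB => hn2.trans (hn Y hY hRB)) (by omega) ?_
  · refine le_trans ?_ (hcap y hy)
    refine add_le_add le_rfl ?_
    simp only [hsd]
    by_cases hyv : y = v
    · rw [if_pos hyv]
      simp only [if_pos hyv]
      rw [sum_ite_eq', if_pos hw]
    · simp only [if_neg hyv, sum_const_zero]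
      split_ifs <;> norm_num
  · have h7 : 7 ≤ sv H f s v w := sv_7 mc.ok f s hr hs1
    have h1 := one_le hnn hv hw
    cases hfv : f v with
    | false =>
      have h9 := sv_9 mc.ok f s hr hs1 hfv
      omega
    | true =>
      rcases hcase with h | h | ⟨z, hz, hzw, h⟩
      · omega
      · have h9 := sv_9m f s hr hs1 h
        omega
      · have h2 := sv_2 mc.ok f s hs0 (Or.inl hfv) h
        have h3 := two_le hnn hv hw hv hz (Or.inr hzw)
        omega

/-- two vertices -/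
theorem twoV (hb : S3_base) (hs : S3_state) (hk : S3_kill) {H : Hub V} {S X : Finset V}
    {v w x z : V} (mc : MinCex P13 H S) (hX : X ⊆ S) (hv : v ∈ X) (hw : w ∈ S \ X)
    (hr : H.r v w = 1) (hn : RBge H S 9) (hle : hp H X ≤ 9) (hx : x ∈ X) (hz : z ∈ S \ X)
    (hxv : x ≠ v) (h : H.r x z = 1 ∨ 1 ≤ H.m x z) : False := by
  obtain ⟨f, p, hcol, hcap⟩ := st hb hs mc hX hv hw hr hn (by norm_num) (x := x)
    (fun _ => le_rfl)
  obtain ⟨s, hsd⟩ : ∃ s : V → V → ℤ, ∀ y t, s y t = if y = v then (if t = w then 1 else 0) else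
      if y = x ∧ f y = false then (if t = z then 1 else 0) else 0 :=
    ⟨_, fun _ _ => rfl⟩
  have hs0 : ∀ y t, 0 ≤ s y t := fun y t => by rw [hsd]; split_ifs <;> norm_num
  have hs1 : 1 ≤ s v w := by rw [hsd, if_pos rfl, if_pos rfl]
  have hnn : ∀ x z, 0 ≤ sv H f s x z := sv_nn mc.ok f s hs0
  refine kk hb hk mc hX hv hw hr hcol hs0 (fun y hy => ?_) hs1
    (fun Y hY hRB => by have := hn Y hY hRB; omega) (by omega) ?_
  · refine le_trans ?_ (hcap y hy)
    refine add_le_add le_rfl ?_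
    simp only [hsd]
    by_cases hyv : y = v
    · rw [if_pos hyv]
      simp only [if_pos hyv]
      rw [sum_ite_eq', if_pos hw]
    · simp only [if_neg hyv]
      by_cases hyx : y = x ∧ f y = false
      · simp only [if_pos hyx]
        rw [sum_ite_eq', if_pos hz]
      · simp only [if_neg hyx, sum_const_zero]
        exact le_rfl
  · have h7 : 7 ≤ sv H f s v w := sv_7 mc.ok f s hr hs1
    have h3 := two_le hnn hv hw hx hz (Or.inl hxv)
    have h2 : 2 ≤ sv H f s x z := by
      refine sv_2 mc.ok f s hs0 ?_ h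
      cases hfx : f x with
      | true => exact Or.inl rfl
      | false =>
        right
        rw [hsd, if_neg hxv, if_pos ⟨rfl, hfx⟩, if_pos rfl]
    omega

theorem rb8 (hb : S3_base) (hs : S3_state) (hk : S3_kill) : S3_rb8 := by
  intro V _ H S mc h6 X hX hRB
  by_contra hlt
  push Not at hlt
  obtain ⟨v, hv, w, hw, hr⟩ := hRB
  exact oneV hb hs hk mc hX hv hw hr h6 le_rfl (by omega) (by omega) (Or.inl (by omega))

theorem m0 (hb : S3_base) (hs : S3_state) (hk : S3_kill) : S3_m0 := by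
  intro V _ H S X hT hRB2
  obtain ⟨v, hv, y₁, hy₁, y₂, hy₂, hne, hr₁, hr₂⟩ := hRB2
  have h8 := hT.h8
  exact oneV hb hs hk hT.mc hT.sub hv hy₁ hr₁ hT.rb8 (by norm_num) (by omega) (by omega)
    (Or.inr (Or.inr ⟨y₂, hy₂, hne.symm, Or.inl hr₂⟩))

theorem rb10 (hb : S3_base) (hs : S3_state) (hk : S3_kill) : S3_rb10 := by
  intro V _ H S mc h9 X hX hRB
  by_contra hlt
  push Not at hlt
  have hX9 := h9 X hX hRB
  obtain ⟨v, hv, w, hw, hr⟩ := hRB
  obtain ⟨hwS, hwX⟩ := mem_sdiff.1 hw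
  have hfalse : ∀ x ∈ X, ∀ z ∈ S \ X, (x ≠ v ∨ z ≠ w) → ¬ (H.r x z = 1 ∨ 1 ≤ H.m x z) := by
    intro x hx z hz hne h
    by_cases hxv : x = v
    · subst hxv
      have hzw : z ≠ w := hne.resolve_left (fun h => h rfl)
      exact oneV hb hs hk mc hX hv hw hr h9 (by norm_num) (by omega) (by omega)
        (Or.inr (Or.inr ⟨z, hz, hzw, h⟩))
    · exact twoV hb hs hk mc hX hv hw hr h9 (by omega) hx hz hxv h
  have hm : ¬ 1 ≤ H.m v w := fun h =>
    oneV hb hs hk mc hX hv hw hr h9 (by norm_num) (by omega) (by omega) (Or.inr (Or.inl h))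
  have e1 : rr H X (S \ X) = 1 := by
    unfold rr
    have k1 : ∀ x ∈ X, ∑ z ∈ S \ X, H.r x z = if x = v then 1 else 0 := by
      intro x hx
      have k2 : ∀ z ∈ S \ X, H.r x z = if z = w then (if x = v then 1 else 0) else 0 := by
        intro z hz
        by_cases hzw : z = w
        · subst hzw
          rw [if_pos rfl]
          by_cases hxv : x = v
          · subst hxv
            rw [if_pos rfl, hr]
          · rw [if_neg hxv]
            have k3 := hfalse x hx z hz (Or.inl hxv)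
            have k4 := mc.ok.r01 x z
            by_contra k5
            exact k3 (Or.inl (k4.resolve_left k5))
        · rw [if_neg hzw]
          have k3 := hfalse x hx z hz (Or.inr hzw)
          have k4 := mc.ok.r01 x z
          by_contra k5
          exact k3 (Or.inl (k4.resolve_left k5))
      rw [sum_congr rfl k2, sum_ite_eq', if_pos hw]
    rw [sum_congr rfl k1, sum_ite_eq', if_pos hv]
  have e2 : mm H X (S \ X) = 0 := by
    unfold mm
    refine sum_eq_zero fun x hx => sum_eq_zero fun z hz => ?_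
    have k1 := mc.ok.m_nn x z
    have k2 : ¬ 1 ≤ H.m x z := by
      by_cases hne : x ≠ v ∨ z ≠ w
      · exact fun h => hfalse x hx z hz hne (Or.inr h)
      · push Not at hne
        rw [hne.1, hne.2]
        exact hm
    omega
  obtain ⟨-, hun, -, -, hmc⟩ := hb V H mc.ok
  obtain ⟨hm1, hm2⟩ := hmc S mc
  have h1 := hun X (S \ X) disjoint_sdiff
  rw [union_sdiff_of_subset hX, e1, e2] at h1
  have h2 := (hm2 X hX ⟨v, hv⟩ (fun h => hwX (h ▸ hwS))).1
  have h3 := h9 (S \ X) sdiff_subset ⟨w, hw, v, mem_sdiff.2 ⟨hX hv, fun h =>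
    (mem_sdiff.1 h).2 hv⟩, by rw [mc.ok.rsymm]; exact hr⟩
  omega

end Pool.Agent.N123.DF
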